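import Pool.Agent.helper85.AQ.SpecB

set_option autoImplicit false

/-! Module `BEF` of project aq (MP_3703a7_ag): the Eisenstein polynomial with given roots. -/

namespace Pool.Agent.AQ

open Polynomial Pool.Agent.HC Pool.Agent.HC.SJ Pool.Agent.SJ Pool.Agent.GJ Pool.Agent.TK Pool.Agent.CM
open Pool.Agent.TQJ Pool.Agent.TQG
open Pool.Agent.FJ (VT Om chiO rf rs IsFrobO)
open Pool.Agent.TD (zK DvK bC mK IsPhiK Stab)
open scoped TensorProduct NumberField

noncomputable section

/-- the polynomial `X^(n+1) + ∑ f_k X^k` -/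
def BEF_F {R : Type} [CommRing R] {n : ℕ} (f : Fin (n + 1) → R) : R[X] :=
  X ^ (n + 1) + ∑ k : Fin (n + 1), C (f k) * X ^ (k : ℕ)

theorem BEF_monic {R : Type} [CommRing R] {n : ℕ} (f : Fin (n + 1) → R) : (BEF_F f).Monic :=
  monic_X_pow_add (degree_sum_fin_lt f)

theorem BEF_deg {R : Type} [CommRing R] [Nontrivial R] {n : ℕ} (f : Fin (n + 1) → R) :
    (BEF_F f).natDegree = n + 1 := by
  have h : (BEF_F f).degree = ((n + 1 : ℕ) : WithBot ℕ) := by
    unfold BEF_F
    rw [degree_add_eq_left_of_degree_lt]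
    · exact degree_X_pow _
    · rw [degree_X_pow]
      exact degree_sum_fin_lt f
  exact natDegree_eq_of_degree_eq_some h

theorem BEF_coeff {R : Type} [CommRing R] {n : ℕ} (f : Fin (n + 1) → R) (i : Fin (n + 1)) :
    (BEF_F f).coeff (i : ℕ) = f i := by
  unfold BEF_F
  rw [coeff_add, finsetSum_coeff, coeff_X_pow, if_neg i.2.ne, zero_add, Finset.sum_eq_single i]
  · rw [coeff_C_mul, coeff_X_pow, if_pos rfl, mul_one]
  · intro j _ hj
    rw [coeff_C_mul, coeff_X_pow, if_neg, mul_zero]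
    intro h
    exact hj (Fin.ext h.symm)
  · intro h
    exact absurd (Finset.mem_univ i) h

theorem BEF_map {R S : Type} [CommRing R] [CommRing S] (φ : R →+* S) {n : ℕ} (f : Fin (n + 1) → R) :
    (BEF_F f).map φ = BEF_F fun k => φ (f k) := by
  unfold BEF_F
  rw [Polynomial.map_add, Polynomial.map_pow, map_X, Polynomial.map_sum]
  refine congrArg _ (Finset.sum_congr rfl fun k _ => ?_)
  rw [Polynomial.map_mul, Polynomial.map_pow, map_X, map_C]

theorem BEF_eval {R : Type} [CommRing R] {n : ℕ} (f : Fin (n + 1) → R) (x : R) :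
    (BEF_F f).eval x = x ^ (n + 1) + ∑ k : Fin (n + 1), f k * x ^ (k : ℕ) := by
  unfold BEF_F
  rw [eval_add, eval_pow, eval_X, eval_finsetSum]
  refine congrArg _ (Finset.sum_congr rfl fun k _ => ?_)
  rw [eval_mul, eval_C, eval_pow, eval_X]

theorem BEF_prod {K : Type} [Field K] {n : ℕ} (f b : Fin (n + 1) → K) (hb : Function.Injective b)
    (h : ∀ j, (BEF_F f).eval (b j) = 0) : BEF_F f = ∏ j, (X - C (b j)) := by
  have hm : (∏ j, (X - C (b j))).Monic := monic_prod_of_monic _ _ fun j _ => monic_X_sub_C _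
  have hd : (∏ j, (X - C (b j))).natDegree = n + 1 := by
    rw [natDegree_prod_of_monic _ _ fun j _ => monic_X_sub_C _]
    simp
  have hd1 : (BEF_F f).degree = (∏ j, (X - C (b j))).degree := by
    rw [degree_eq_natDegree (BEF_monic f).ne_zero, degree_eq_natDegree hm.ne_zero, BEF_deg, hd]
  refine eq_of_degree_sub_lt_of_eval_index_eq (s := Finset.univ) hb.injOn ?_ ?_
  · have h1 := degree_sub_lt_left hd1 (BEF_monic f).ne_zero
      ((BEF_monic f).leadingCoeff.trans hm.leadingCoeff.symm)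
    refine lt_of_lt_of_eq h1 ?_
    rw [degree_eq_natDegree (BEF_monic f).ne_zero, BEF_deg, Finset.card_univ, Fintype.card_fin]
  · intro j _
    rw [h j, eval_prod]
    symm
    refine Finset.prod_eq_zero (Finset.mem_univ j) ?_
    rw [eval_sub, eval_X, eval_C, sub_self]

theorem BEF : BEF_stmt := by
  intro K _ _ n p hp a ha f c hf hf0 hroot
  have hp' : (1 : ℤ) < p := by exact_mod_cast hp.one_lt
  have hmap : (BEF_F f).map (Int.castRingHom K) = ∏ j, (X - C (a j - (c : K))) := by
    rw [BEF_map]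
    refine BEF_prod _ _ (fun i j hij => ha (sub_left_injective hij)) fun j => ?_
    rw [BEF_eval]
    exact hroot j
  refine ⟨⟨BEF_F f, BEF_monic f, ⟨?_, ?_, ?_⟩, hmap⟩, ?_⟩
  · rw [(BEF_monic f).leadingCoeff, Ideal.mem_span_singleton]
    intro h
    have := Int.le_of_dvd one_pos h
    omega
  · intro i hi
    rw [BEF_deg] at hi
    have h1 := BEF_coeff f ⟨i, hi⟩
    rw [Ideal.mem_span_singleton]
    show (p : ℤ) ∣ (BEF_F f).coeff i
    have h2 : (BEF_F f).coeff i = f ⟨i, hi⟩ := h1
    rw [h2]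
    exact hf _
  · have h2 : (BEF_F f).coeff 0 = f 0 := BEF_coeff f 0
    rw [h2, Ideal.span_singleton_pow, Ideal.mem_span_singleton]
    exact hf0
  · refine ⟨((BEF_F f).map (Int.castRingHom ℚ)).comp (X - C (c : ℚ)), ?_⟩
    have e1 : (algebraMap ℚ K).comp (Int.castRingHom ℚ) = Int.castRingHom K := RingHom.ext_int _ _
    rw [Polynomial.map_comp, Polynomial.map_map, e1, hmap, prod_comp]
    refine Finset.prod_congr rfl fun j _ => ?_
    rw [Polynomial.map_sub, map_X, map_C, sub_comp, X_comp, C_comp, map_intCast, C_sub]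
    ring

end

end Pool.Agent.AQ
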