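import Pool.Agent.helper85.AQ.SpecB
import Pool.Agent.helper31.TD.INJ

set_option autoImplicit false

/-! Module `BIN` of project aq (MP_3703a7_ag): the specialisation is injective on `V_q` for `q`, `l` invertible in the residue field. -/

namespace Pool.Agent.AQ

open Polynomial Pool.Agent.HC Pool.Agent.HC.SJ Pool.Agent.SJ Pool.Agent.GJ Pool.Agent.TK Pool.Agent.CM
open Pool.Agent.TQJ Pool.Agent.TQG
open Pool.Agent.FJ (VT Om chiO rf rs IsFrobO)
open Pool.Agent.TD (zK DvK bC mK IsPhiK Stab)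
open scoped TensorProduct NumberField

noncomputable section

/-- roots of unity of order invertible in the residue field -/
theorem BIN_root {K : Type} [Field K] (O : ValuationSubring K) (N : ℕ)
    (hN : ((N : ℕ) : rf O) ≠ 0) (x : O) (hx : x ^ N = 1) (hr : rs O x = 1) : x = 1 := by
  by_contra hne
  have h1 : (∑ i ∈ Finset.range N, x ^ i) * (x - 1) = 0 := by
    rw [geom_sum_mul, hx, sub_self]
  have h2 : ∑ i ∈ Finset.range N, x ^ i = 0 := by
    rcases mul_eq_zero.mp h1 with h | h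
    · exact h
    · exact absurd (sub_eq_zero.mp h) hne
  have h3 := congrArg (rs O) h2
  rw [map_sum, map_zero] at h3
  simp only [map_pow, hr, one_pow, Finset.sum_const, Finset.card_range, nsmul_eq_mul, mul_one] at h3
  exact hN h3

/-- an element of `V_q` all of whose values are killed by `D` is zero -/
theorem BIN_VT {A : Type} [AddCommGroup A] (q : ℕ) [Fact q.Prime] (v : VT q A) (D : ℕ)
    (hD : D ≠ 0) (h : ∀ (x : ℚ_[q]) (m : ℕ), (q ^ m) • v.val x = 0 → D • v.val x = 0) :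
    v = 0 := by
  have hns : ∀ (m : ℕ) (x : ℚ_[q]), v.val ((m : ℚ_[q]) * x) = m • v.val x := by
    intro m x
    rw [← nsmul_eq_mul]
    exact map_nsmul v.1 m x
  have htor : ∀ x : ℚ_[q], ∃ m : ℕ, (q ^ m) • v.val x = 0 := by
    intro x
    obtain ⟨k, hk⟩ := v.2
    obtain ⟨j, hj⟩ : ∃ j : ℕ, ‖(q : ℚ_[q]) ^ j * x‖ ≤ 1 := by
      have hl : ‖(q : ℚ_[q])‖ < 1 := Padic.norm_p_lt_one
      have h0 : Filter.Tendsto (fun j : ℕ => ‖(q : ℚ_[q])‖ ^ j * ‖x‖) Filter.atTop
          (nhds (0 * ‖x‖)) :=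
        (tendsto_pow_atTop_nhds_zero_of_lt_one (norm_nonneg _) hl).mul_const _
      rw [zero_mul] at h0
      obtain ⟨j, hj⟩ := (h0.eventually (gt_mem_nhds (zero_lt_one))).exists
      refine ⟨j, ?_⟩
      rw [norm_mul, norm_pow]
      exact hj.le
    refine ⟨k + j, ?_⟩
    have h1 := hk ⟨(q : ℚ_[q]) ^ j * x, hj⟩
    rw [← hns]
    have h2 : ((q ^ (k + j) : ℕ) : ℚ_[q]) * x = (q : ℚ_[q]) ^ k * ((q : ℚ_[q]) ^ j * x) := by
      push_cast
      rw [pow_add]
      ring
    rw [h2]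
    exact h1
  refine VT.ext fun x => ?_
  have hDq : (D : ℚ_[q]) ≠ 0 := by exact_mod_cast hD
  have h3 : v.val x = D • v.val ((D : ℚ_[q])⁻¹ * x) := by
    rw [← hns, ← mul_assoc, mul_inv_cancel₀ hDq, one_mul]
  obtain ⟨N, hN0⟩ := htor ((D : ℚ_[q])⁻¹ * x)
  rw [h3, h _ N hN0]
  rfl

section hv
variable {K : Type} [Field K] {l n : ℕ} {μ : Fin (n + 1) → ℕ} {a : Fin (n + 1) → K}

theorem BIN_hvn (m : ℕ) (f g : CR K l μ a) (A B : Multiset (Pc K l μ a)) :
    hvK f g (m • A) (m • B) = hvK f g A B ^ m := by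
  rw [hvK, hvK, Multiset.map_nsmul, Multiset.map_nsmul, Multiset.prod_nsmul, Multiset.prod_nsmul, div_pow]

theorem BIN_hvp (m : ℕ) (f g : CR K l μ a) (A B : Multiset (Pc K l μ a)) :
    hvK (f ^ m) (g ^ m) A B = hvK f g A B ^ m := by
  have h : ∀ S : Multiset (Pc K l μ a), (S.map fun q => ev q (f ^ m) / ev q (g ^ m)).prod =
      (S.map fun q => ev q f / ev q g).prod ^ m := by
    intro S
    rw [← Multiset.prod_map_pow]
    refine congrArg Multiset.prod (Multiset.map_congr rfl fun q _ => ?_)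
    rw [map_pow, map_pow, div_pow]
  rw [hvK, hvK, h, h, div_pow]

theorem BIN_hvc (κ : K) (hκ : κ ≠ 0) (f g : CR K l μ a) (A B : Multiset (Pc K l μ a))
    (hAB : Multiset.card A = Multiset.card B) :
    hvK (algebraMap K (CR K l μ a) κ * f) g A B = hvK f g A B := by
  have h : ∀ S : Multiset (Pc K l μ a), (S.map fun q => ev q (algebraMap K (CR K l μ a) κ * f) / ev q g).prod =
      κ ^ Multiset.card S * (S.map fun q => ev q f / ev q g).prod := by
    intro S
    induction S using Multiset.induction_on with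
    | empty => simp
    | cons p S ih =>
      rw [Multiset.map_cons, Multiset.prod_cons, ih, Multiset.map_cons, Multiset.prod_cons,
        Multiset.card_cons, map_mul, ev_C, pow_succ]
      ring
  rw [hvK, hvK, h, h, hAB, mul_div_mul_left _ _ (pow_ne_zero _ hκ)]

theorem BIN_fib (T : Multiset (Pc K l μ a)) (h : IsFib T) : Multiset.card T = l := by
  obtain ⟨z, v, e, -, h1⟩ := h
  have h2 := congrArg Multiset.card h1
  rwa [Multiset.card_map, Multiset.card_map, Multiset.card_range] at h2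

end hv

theorem BIN (hSTD : STD_stmt) (hYI0 : YI0_stmt) (hTOR : TOR_stmt) (h3 : TD.V3_stmt)
    (h5 : TD.V5_stmt) (hVK : TD.VK_stmt) (hBYP : BYP_stmt) (hBD2 : BD2_stmt) (hBLI : BLI_stmt)
    (hBCO : BCO_stmt) (h7 : KA7_stmt) (hA5 : YA5_stmt) (hF1 : FJ.B1_stmt) : BIN_stmt := by
  classical
  intro K _ _ _ φ O l n q _ _ _ hq hl hn μ a' a b _ _ h h' _ _ sp hsp v hv
  have hchK : CharZero K := φ.charZero
  have hcl : IsAlgClosed (rf O) := (hF1 K O).1
  have hlK : NeZero (l : K) := ⟨by exact_mod_cast (Fact.out : l.Prime).ne_zero⟩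
  have hgC : Good ℂ l μ (bC φ a) := TD.INJ_good inferInstance φ
  obtain ⟨L, F, Y, hS⟩ := hSTD l hl n μ (bC φ a) hn (Set.range φ) (Set.countable_range φ)
  obtain ⟨Φ, hΦ⟩ := h3 K l n μ a φ L F Y hS
  obtain ⟨hYb, d, E, hE, -⟩ := hYI0 l n μ (bC φ a) L F Y hS.toStd0
  obtain ⟨d', hd'⟩ : ∃ d' : ℕ, d' = l * d := ⟨_, rfl⟩
  have hD0 : l * (d' * l * d) ≠ 0 := by
    have h1 := (Fact.out : l.Prime).pos
    have h2 := hE.1
    rw [hd']
    positivity
  refine BIN_VT q v (l * (d' * l * d)) hD0 fun x m hNx => ?_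
  obtain ⟨N, hNdef⟩ : ∃ N : ℕ, N = q ^ m := ⟨_, rfl⟩
  rw [← hNdef] at hNx
  have hN : 0 < N := by
    rw [hNdef]
    exact pow_pos (Fact.out : q.Prime).pos _
  have hNr : ((N : ℕ) : rf O) ≠ 0 := by
    rw [hNdef]
    push_cast
    exact pow_ne_zero _ hq
  set c : ClassGroup (CR K l μ a) := Additive.toMul (v.val x) with hcdef
  have hc0 : v.val x = Additive.ofMul c := rfl
  have hsc : sp c = 1 := hv x
  have hc : c ^ N = 1 := by
    have h1 : Additive.ofMul (c ^ N) = 0 := by rw [ofMul_pow, ← hc0, hNx]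
    exact h1
  rw [hc0]
  rw [hc0] at hNx
  obtain ⟨u, hu⟩ := TD.INJ_mk L Φ N hN (Additive.ofMul c) hNx
  have hdiv : ∀ w : L, (N : ℤ) ∣ ((d' * l : ℕ) : ℤ) * E u w := by
    intro w
    obtain ⟨S0, f0, hf0, -, hF0⟩ := hTOR K l n hl hn μ a φ (bC φ a) (fun _ => rfl) L F Y
      hS.toStd0 N (w : Idx l μ → ℂ) hN w.2
    set c1 : ClassGroup (CR K l μ a) := (S0.map cl).prod with hc1def
    have hc1 : c1 ^ N = 1 := by
      have h1 := (h7 K l n μ a).2.2.1 (N • S0)
      rw [Multiset.map_nsmul, Multiset.prod_nsmul] at h1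
      exact h1.2 ⟨f0, hf0.div.symm⟩
    have hΦ1 : Φ (Additive.ofMul c1) =
        QuotientAddGroup.mk ((N : ℂ)⁻¹ • ((l • w : L) : Idx l μ → ℂ)) := by
      rw [hc1def, TD.INJ_phi φ L F Φ hΦ S0, QuotientAddGroup.eq_iff_sub_mem]
      have h1 := L.nsmul_mem hF0 l
      have h2 : (l : ℂ) • (S0.map fun p => F (φ p.1.1, φ p.1.2)).sum -
          (N : ℂ)⁻¹ • ((l • w : L) : Idx l μ → ℂ) =
          l • ((S0.map fun p => F (φ p.1.1, φ p.1.2)).sum - (N : ℂ)⁻¹ • (w : Idx l μ → ℂ)) := by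
        rw [smul_sub, Nat.cast_smul_eq_nsmul, AddSubgroup.coe_nsmul, smul_comm]
      rw [h2]
      exact h1
    obtain ⟨S, T, f, g, hD, hDr, -⟩ := hBYP K O l n hl μ a' a b h h' sp hsp ∅ N hN c hc
    -- the function with the divisor `l S` over the residue field and its lifting
    obtain ⟨hb0, hhb0⟩ := ((h7 (rf O) l n μ b).2.2.1 (S.map (mapPc (rs O) h'))).1 (hDr.cls.trans hsc)
    obtain ⟨hb, hhb⟩ := (hA5 (rf O) l n μ b).1 hb0 _ hhb0.symm
    obtain ⟨G, S1, hG, hGr, hS1r⟩ := hBLI K O l n μ a' a b h h' hb _ hhb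
    have hcS1 : Multiset.card S1 = l * Multiset.card S := by
      have h1 := congrArg Multiset.card hS1r
      rwa [Multiset.card_map, Multiset.card_nsmul, Multiset.card_map] at h1
    obtain ⟨S', T', f', g', hD', hDr', hB⟩ := hBYP K O l n hl μ a' a b h h' sp hsp
      (((S + T + S1).map fun q => rs O q.1.1).toFinset) N hN c1 hc1
    have hdis0 : ∀ p ∈ S + T + S1, ∀ p' ∈ S' + T', rs O p.1.1 ≠ rs O p'.1.1 := by
      intro p hp p' hp' he
      apply hB p' hp'
      rw [Multiset.mem_toFinset, ← he]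
      exact Multiset.mem_map_of_mem (fun q : Pc O l μ a' => rs O q.1.1) hp
    have hdis : ∀ p ∈ S + T, ∀ p' ∈ S' + T', rs O p.1.1 ≠ rs O p'.1.1 := fun p hp =>
      hdis0 p (Multiset.mem_add.2 (Or.inl hp))
    have hdis1 : ∀ p ∈ S1 + T, ∀ p' ∈ S' + T', rs O p.1.1 ≠ rs O p'.1.1 := fun p hp =>
      hdis0 p (by
        rcases Multiset.mem_add.1 hp with h1 | h1
        · exact Multiset.mem_add.2 (Or.inr h1)
        · exact Multiset.mem_add.2 (Or.inl (Multiset.mem_add.2 (Or.inr h1))))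
    have hmS : ∀ (k k' : ℕ) (A B : Multiset (Pc O l μ a')) (p : Pc O l μ a'),
        p ∈ k • A + k' • B → p ∈ A + B := by
      intro k k' A B p hp
      rcases Multiset.mem_add.1 hp with h1 | h1
      · exact Multiset.mem_add.2 (Or.inl (Multiset.mem_of_mem_nsmul h1))
      · exact Multiset.mem_add.2 (Or.inr (Multiset.mem_of_mem_nsmul h1))
    have hmR : ∀ (k k' : ℕ) (A B : Multiset (Pc O l μ a')) (p : Pc (rf O) l μ b),
        p ∈ N • (k • A.map (mapPc (rs O) h')) + N • (k' • B.map (mapPc (rs O) h')) →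
        ∃ p0 ∈ A + B, p.1.1 = rs O p0.1.1 := by
      intro k k' A B p hp
      rcases Multiset.mem_add.1 hp with h1 | h1
      · obtain ⟨p0, hp0, rfl⟩ := Multiset.mem_map.1
          (Multiset.mem_of_mem_nsmul (Multiset.mem_of_mem_nsmul h1))
        exact ⟨p0, Multiset.mem_add.2 (Or.inl hp0), rfl⟩
      · obtain ⟨p0, hp0, rfl⟩ := Multiset.mem_map.1
          (Multiset.mem_of_mem_nsmul (Multiset.mem_of_mem_nsmul h1))
        exact ⟨p0, Multiset.mem_add.2 (Or.inr hp0), rfl⟩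
    -- the Weil value of `c`, `c1`
    obtain ⟨s, hs, hsN, hse⟩ := h5 K l n μ a φ L F Y hS Φ hΦ d E hE N c _ _ _ _ c1 _ _ _ _ hN
      hD hD' (by
        intro p hp p' hp' he
        rw [← Multiset.map_add] at hp hp'
        obtain ⟨p0, hp0, rfl⟩ := Multiset.mem_map.1 hp
        obtain ⟨p0', hp0', rfl⟩ := Multiset.mem_map.1 hp'
        have h1 : ((p0.1.1 : O) : K) = ((p0'.1.1 : O) : K) := he
        exact hdis p0 hp0 p0' hp0' (congrArg (rs O) (Subtype.ext h1))) u (l • w) hu hΦ1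
    -- the Weil value of `1`, `c1`
    have hD1 : DvK N (1 : ClassGroup (CR K l μ a)) (S1.map (mapPc O.subtype h)) (T.map (mapPc O.subtype h))
        (mp O.subtype h (G ^ (N * l))) (mp O.subtype h (g ^ l)) := by
      refine ⟨?_, hD.fib, ?_, ?_⟩
      · exact ((h7 K l n μ a).2.2.1 _).2 ⟨_, hG.div.symm⟩
      · rw [map_pow, ← mul_smul]
        exact (hA5 K l n μ a).2.1 _ _ _ hG
      · rw [map_pow]
        have h1 := (hA5 K l n μ a).2.1 _ _ l hD.g
        have h2 : l • (N • (Multiset.card (S.map (mapPc O.subtype h)) • T.map (mapPc O.subtype h))) =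
            N • (Multiset.card (S1.map (mapPc O.subtype h)) • T.map (mapPc O.subtype h)) := by
          rw [Multiset.card_map, Multiset.card_map, hcS1, mul_smul, smul_comm l N]
        rw [← h2]
        exact h1
    obtain ⟨t, ht, -, hte⟩ := h5 K l n μ a φ L F Y hS Φ hΦ d E hE N 1 _ _ _ _ c1 _ _ _ _ hN
      hD1 hD' (by
        intro p hp p' hp' he
        rw [← Multiset.map_add] at hp hp'
        obtain ⟨p0, hp0, rfl⟩ := Multiset.mem_map.1 hp
        obtain ⟨p0', hp0', rfl⟩ := Multiset.mem_map.1 hp'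
        have h1 : ((p0.1.1 : O) : K) = ((p0'.1.1 : O) : K) := he
        exact hdis1 p0 hp0 p0' hp0' (congrArg (rs O) (Subtype.ext h1))) 0 (l • w) (by
        show Φ 0 = _
        rw [map_zero]
        simp) hΦ1
    have ht1 : t ^ d = 1 := by
      apply φ.injective
      rw [map_pow, hte, map_one, map_zero, AddMonoidHom.zero_apply]
      simp
    -- the values over `O`
    obtain ⟨y1, -, hy1, hy1r⟩ := hBD2 K O l n μ a' a b h h' f' g' (l • S)
      (Multiset.card S • T) _ _ hDr'.f hDr'.g (by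
        intro p hp p' hp'
        obtain ⟨p0', hp0', he⟩ := hmR _ _ _ _ p' hp'
        rw [he]
        exact hdis p (hmS _ _ _ _ p hp) p0' hp0')
    obtain ⟨y2, hy2u, hy2, hy2r⟩ := hBD2 K O l n μ a' a b h h' f g (l • S')
      (Multiset.card S' • T') _ _ hDr.f hDr.g (by
        intro p hp p' hp'
        obtain ⟨p0', hp0', he⟩ := hmR _ _ _ _ p' hp'
        rw [he]
        exact (hdis p0' hp0' p (hmS _ _ _ _ p hp)).symm)
    obtain ⟨z1, -, hz1, hz1r⟩ := hBD2 K O l n μ a' a b h h' f' g' (l • S1)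
      (Multiset.card S1 • T) _ _ hDr'.f hDr'.g (by
        intro p hp p' hp'
        obtain ⟨p0', hp0', he⟩ := hmR _ _ _ _ p' hp'
        rw [he]
        exact hdis1 p (hmS _ _ _ _ p hp) p0' hp0')
    have hNF1 : NFK (mp (rs O) h' (G ^ (N * l)) : CR (rf O) l μ b)
        (N • (l • S1.map (mapPc (rs O) h'))) := by
      rw [map_pow, hGr, ← mul_smul, hS1r]
      exact (hA5 (rf O) l n μ b).2.1 _ _ _ hhb
    have hNF2 : NFK (mp (rs O) h' (g ^ l) : CR (rf O) l μ b)
        (N • (Multiset.card S1 • T.map (mapPc (rs O) h'))) := by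
      rw [map_pow]
      have h1 := (hA5 (rf O) l n μ b).2.1 _ _ l hDr.g
      have h2 : l • (N • (Multiset.card (S.map (mapPc (rs O) h')) • T.map (mapPc (rs O) h'))) =
          N • (Multiset.card S1 • T.map (mapPc (rs O) h')) := by
        rw [Multiset.card_map, hcS1, mul_smul, smul_comm l N]
      rw [← h2]
      exact h1
    obtain ⟨z2, hz2u, hz2, hz2r⟩ := hBD2 K O l n μ a' a b h h' (G ^ (N * l)) (g ^ l) (l • S')
      (Multiset.card S' • T') _ _ hNF1 hNF2 (by
        intro p hp p' hp'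
        obtain ⟨p0', hp0', he⟩ := hmR _ _ _ _ p' hp'
        rw [he]
        exact (hdis1 p0' hp0' p (hmS _ _ _ _ p hp)).symm)
    rw [Multiset.map_nsmul, Multiset.map_nsmul] at hy1 hy1r hy2 hy2r hz1 hz1r hz2 hz2r
    rw [Multiset.card_map, Multiset.card_map, ← hy1, ← hy2] at hs
    rw [Multiset.card_map, Multiset.card_map, ← hz1, ← hz2] at ht
    -- comparison of the residues
    have hA : rs O z1 = rs O y1 ^ l := by
      rw [hz1r, hy1r, hS1r, hcS1, mul_smul, BIN_hvn]
    obtain ⟨κ, hκ, hκ'⟩ := hBCO (rf O) l n μ b _ (hb ^ N) _ hDr.f ((hA5 (rf O) l n μ b).2.1 _ _ _ hhb)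
    have hcard : Multiset.card (l • S'.map (mapPc (rs O) h')) =
        Multiset.card (Multiset.card S' • T'.map (mapPc (rs O) h')) := by
      rw [Multiset.card_nsmul, Multiset.card_nsmul, BIN_fib _ hDr'.fib, Multiset.card_map,
        Nat.mul_comm]
    have hBz : rs O z2 = rs O y2 ^ l := by
      rw [hz2r, hy2r, map_pow, map_pow, hGr, pow_mul, BIN_hvp, hκ', BIN_hvc κ hκ _ _ _ _ hcard]
    obtain ⟨y3, hy3⟩ := hy2u.exists_right_inv
    obtain ⟨z3, hz3⟩ := hz2u.exists_right_inv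
    have hy3K : (y2 : K) * (y3 : K) = 1 := by exact_mod_cast congrArg (fun z : O => (z : K)) hy3
    have hz3K : (z2 : K) * (z3 : K) = 1 := by exact_mod_cast congrArg (fun z : O => (z : K)) hz3
    have hy3r : rs O y2 * rs O y3 = 1 := by rw [← map_mul, hy3, map_one]
    have hz3r : rs O z2 * rs O z3 = 1 := by rw [← map_mul, hz3, map_one]
    have hs1 : ((y1 * y3 : O) : K) = s := by
      rw [hs, eq_div_iff (left_ne_zero_of_mul_eq_one hy3K)]
      push_cast
      linear_combination (y1 : K) * hy3K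
    have ht2 : ((z1 * z3 : O) : K) = t := by
      rw [ht, eq_div_iff (left_ne_zero_of_mul_eq_one hz3K)]
      push_cast
      linear_combination (z1 : K) * hz3K
    have ht3 : (z1 * z3) ^ d = 1 := by
      apply Subtype.ext
      have h2 : (((z1 * z3) ^ d : O) : K) = ((z1 * z3 : O) : K) ^ d := by push_cast; rfl
      rw [h2, ht2, ht1]
      rfl
    have hr1 : rs O (y1 * y3) ^ l = rs O (z1 * z3) := by
      rw [map_mul, map_mul, hA, mul_pow]
      congr 1
      have h1 : rs O y3 ^ l * rs O z2 = 1 := by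
        rw [hBz, ← mul_pow, mul_comm (rs O y3), hy3r, one_pow]
      have h2 : rs O z3 * rs O z2 = 1 := by rw [mul_comm, hz3r]
      exact mul_right_cancel₀ (right_ne_zero_of_mul_eq_one h2) (h1.trans h2.symm)
    have hr2 : rs O ((y1 * y3) ^ d') = 1 := by
      rw [map_pow, hd', pow_mul, hr1, ← map_pow, ht3, map_one]
    have hx1 : (y1 * y3) ^ d' = 1 := by
      refine BIN_root O N hNr _ ?_ hr2
      have h1 : (y1 * y3) ^ N = 1 := by
        apply Subtype.ext
        have h2 : (((y1 * y3) ^ N : O) : K) = ((y1 * y3 : O) : K) ^ N := by push_cast; rfl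
        rw [h2, hs1, hsN]
        rfl
      rw [← pow_mul, Nat.mul_comm, pow_mul, h1, one_pow]
    have hsd : s ^ d' = 1 := by
      rw [← hs1]
      have h2 : ((y1 * y3 : O) : K) ^ d' = (((y1 * y3) ^ d' : O) : K) := by push_cast; rfl
      rw [h2, hx1]
      rfl
    have h8 := TD.INJ_exp φ s d d' N hN (E u (l • w)) hse hsd
    rw [map_nsmul, nsmul_eq_mul] at h8
    push_cast
    have h9 : (d' : ℤ) * ((l : ℤ) * E u w) = (d' : ℤ) * (l : ℤ) * E u w := by ring
    rw [← h9]
    exact h8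
  have h10 := TD.INJ_int L Y hS.int hYb.2 d E hE.2 N (d' * l) hN u hdiv
  have h11 : Φ ((d' * l * d) • Additive.ofMul c) = 0 := by
    rw [map_nsmul, hu, ← QuotientAddGroup.mk_nsmul, QuotientAddGroup.eq_zero_iff]
    exact h10
  have h12 := hVK K l n hl hn μ a φ L F Y hS.toStd0 Φ hΦ _ h11
  rw [mul_smul]
  exact h12

end

end Pool.Agent.AQ
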