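import Pool.Agent.helper85.AQ.SpecB
import Pool.Agent.helper66.FJ.B1

set_option autoImplicit false

/-! Module `BSE` of project aq (MP_3703a7_ag): the specialisation commutes with the isomorphisms which fix `O`. -/

namespace Pool.Agent.AQ

open Polynomial Pool.Agent.HC Pool.Agent.HC.SJ Pool.Agent.SJ Pool.Agent.GJ Pool.Agent.TK Pool.Agent.CM
open Pool.Agent.TQJ Pool.Agent.TQG
open Pool.Agent.FJ (VT Om chiO rf rs IsFrobO)
open Pool.Agent.TD (zK DvK bC mK IsPhiK Stab)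
open scoped TensorProduct NumberField

noncomputable section

theorem BSE_pt (hBT1 : BT1_stmt) (hB1 : KB1_stmt) (K : Type) [Field K] [IsAlgClosed K]
    (O : ValuationSubring K) [IsAlgClosed (rf O)]
    (l n : ℕ) [Fact l.Prime] [NeZero (l : K)] [NeZero (l : rf O)] (μ : Fin (n + 1) → ℕ)
    (a' : Fin (n + 1) → O) (a : Fin (n + 1) → K)
    (b : Fin (n + 1) → rf O) [Good K l μ a] [Good (rf O) l μ b] (h : ∀ j, O.subtype (a' j) = a j)
    (h' : ∀ j, rs O (a' j) = b j) [IsDedekindDomain (CR K l μ a)] [IsDedekindDomain (CR (rf O) l μ b)]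
    (sp : ClassGroup (CR K l μ a) →* ClassGroup (CR (rf O) l μ b)) (hsp : IsSp O h h' sp)
    (τ : K ≃+* K) (τ' : rf O ≃+* rf O) (hst : Stab O τ) (hrd : Rd O τ τ') (c d : O)
    (π : Equiv.Perm (Fin (n + 1))) (hc : IsUnit c)
    (hQ : IsQ l μ a a τ (c : K) 0 (d : K) π)
    (E : ClassGroup (CR K l μ a) →* ClassGroup (CR K l μ a))
    (E' : ClassGroup (CR (rf O) l μ b) →* ClassGroup (CR (rf O) l μ b))
    (hE : IsT τ (c : K) 0 (d : K) E) (hE' : IsT τ' (rs O c) 0 (rs O d) E') (q : Pc K l μ a) :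
    sp (E (cl q)) = E' (sp (cl q)) := by
  have hpos : ∀ j, 0 < μ j := Good.pos (K := K) (l := l) (μ := μ) (a := a)
  obtain ⟨b1, -, b3⟩ := hB1 K O l n μ a' a b h h' hpos
  obtain ⟨q1, hq1a, hq1b⟩ := (hBT1 K K l n μ a a τ (c : K) 0 (d : K) π hQ).2 q
  rw [add_zero] at hq1a
  have hc0 : rs O c ≠ 0 := (hc.map (rs O)).ne_zero
  -- the reduction of the equation for the branch points
  have hbr : ∀ i, rs O c * τ' (b i) = b (π i) := by
    intro i
    have hz : τ (a i) ∈ O := (hst _).1 (by rw [← h i]; exact (a' i).2)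
    have h1 : τ' (rs O (a' i)) = rs O ⟨τ (a i), hz⟩ := hrd (a' i) ⟨τ (a i), hz⟩ (congrArg τ (h i))
    have h2 : a' (π i) = c * ⟨τ (a i), hz⟩ := Subtype.ext (by
      show (a' (π i) : K) = (c : K) * τ (a i)
      have h3 : (a' (π i) : K) = a (π i) := h (π i)
      rw [h3, ← hQ.pt i, add_zero])
    rw [← h' i, h1, ← map_mul, ← h2, h']
  rw [hE q q1 (by rw [add_zero]; exact hq1a) hq1b, hsp q1, hsp q]
  by_cases hq : ∃ q' : Pc O l μ a', mapPc O.subtype h q' = q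
  · obtain ⟨q', hq'⟩ := hq
    obtain ⟨u0, hu0, hu0'⟩ := (b1 q).1 ⟨q', hq'⟩
    have e1 : (q'.1.1 : K) = q.1.1 := by rw [← hq']; rfl
    have e2 : (q'.1.2 : K) = q.1.2 := by rw [← hq']; rfl
    have e3 : u0 = q'.1.1 := Subtype.ext (hu0.trans e1.symm)
    have hU : τ q.1.1 ∈ O := by
      rw [← e1]
      exact (hst _).1 q'.1.1.2
    have hV : τ q.1.2 ∈ O := by
      rw [← e2]
      exact (hst _).1 q'.1.2.2
    have hU1 : τ' (rs O q'.1.1) = rs O ⟨τ q.1.1, hU⟩ := hrd q'.1.1 ⟨τ q.1.1, hU⟩ (by rw [e1])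
    have hV1 : τ' (rs O q'.1.2) = rs O ⟨τ q.1.2, hV⟩ := hrd q'.1.2 ⟨τ q.1.2, hV⟩ (by rw [e2])
    obtain ⟨q2, hq2⟩ := (b1 q1).2 ⟨c * ⟨τ q.1.1, hU⟩, by rw [hq1a]; rfl, fun j hj => by
      rw [map_mul, ← hU1] at hj
      have h4 := hbr (π.symm j)
      rw [Equiv.apply_symm_apply, ← hj] at h4
      have h5 := mul_left_cancel₀ hc0 h4
      apply hu0' (π.symm j)
      rw [e3]
      exact (τ'.injective h5).symm⟩
    have f1 : (q2.1.1 : K) = q1.1.1 := by rw [← hq2]; rfl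
    have f2 : (q2.1.2 : K) = q1.1.2 := by rw [← hq2]; rfl
    have g1 : q2.1.1 = c * ⟨τ q.1.1, hU⟩ := Subtype.ext (by rw [f1, hq1a]; rfl)
    have g2 : q2.1.2 = d * ⟨τ q.1.2, hV⟩ := Subtype.ext (by rw [f2, hq1b]; rfl)
    rw [← hq', ← hq2, b3, b3]
    show cl _ = E' (cl _)
    refine (hE' _ _ ?_ ?_).symm
    · show rs O q2.1.1 = rs O c * τ' (rs O q'.1.1) + 0
      rw [g1, map_mul, hU1, add_zero]
    · show rs O q2.1.2 = rs O d * τ' (rs O q'.1.2)
      rw [g2, map_mul, hV1]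
  · have hq1 : ¬ ∃ q' : Pc O l μ a', mapPc O.subtype h q' = q1 := by
      intro h3
      obtain ⟨w, hw, hw'⟩ := (b1 q1).1 h3
      apply hq
      obtain ⟨ci, hci⟩ := hc.exists_left_inv
      have hci' : (ci : K) * (c : K) = 1 := by
        have h4 := congrArg (fun x : O => (x : K)) hci
        exact h4
      have hu1 : τ q.1.1 = (ci : K) * (w : K) := by
        rw [hw, hq1a, ← mul_assoc, hci', one_mul]
      have hu2 : τ q.1.1 ∈ O := by
        rw [hu1]
        exact O.mul_mem _ _ ci.2 w.2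
      have hu : q.1.1 ∈ O := (hst _).2 hu2
      refine (b1 q).2 ⟨⟨q.1.1, hu⟩, rfl, fun j hj => ?_⟩
      have h4 := hrd ⟨q.1.1, hu⟩ ⟨τ q.1.1, hu2⟩ rfl
      rw [hj] at h4
      have h5 : w = c * ⟨τ q.1.1, hu2⟩ := Subtype.ext (by rw [hw, hq1a]; rfl)
      apply hw' (π j)
      rw [h5, map_mul, ← h4, hbr]
    rw [red, dif_neg hq1, red, dif_neg hq]
    show (1 : ClassGroup (CR (rf O) l μ b)) = E' 1
    rw [map_one]

theorem BSE (hBT1 : BT1_stmt) (h7 : KA7_stmt) (hB1 : KB1_stmt) : BSE_stmt := by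
  intro K _ _ O l n _ _ μ a' a b _ _ h h' _ _ sp hsp τ τ' hst hrd c d π hc _ hQ E E' hE hE' C
  have hk : IsAlgClosed (rf O) := Pool.Agent.FJ.B1_closed O
  have hl1 : ((l : ℕ) : rf O) ≠ 0 := NeZero.ne _
  have hl0 : NeZero (l : K) := ⟨by
    intro h0
    have h1 : ((l : ℕ) : O) = 0 := Subtype.ext (by
      show (((l : ℕ) : O) : K) = ((0 : O) : K)
      have e : (((l : ℕ) : O) : K) = (l : K) := map_natCast O.subtype l
      rw [e, h0]
      rfl)
    have h2 := congrArg (rs O) h1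
    rw [map_natCast, map_zero] at h2
    exact hl1 h2⟩
  obtain ⟨-, k2, -⟩ := h7 K l n μ a
  obtain ⟨S, rfl⟩ := k2 C
  induction S using Multiset.induction_on with
  | empty =>
    rw [Multiset.map_zero, Multiset.prod_zero, map_one, map_one, map_one]
  | cons q S ih =>
    rw [Multiset.map_cons, Multiset.prod_cons, map_mul, map_mul, map_mul, map_mul, ih,
      BSE_pt hBT1 hB1 K O l n μ a' a b h h' sp hsp τ τ' hst hrd c d π hc hQ E E' hE hE' q]

end

end Pool.Agent.AQ
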